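import Mathlib

/-! Closed hereditary families, the conditions `(A, J)` and their combinatorics. -/

namespace Pool.Agent.MP_8214d2_lc

open Set

/-- Closed hereditary families of subsets of `ω`. -/
structure IsFam (C : Set (Set ℕ)) : Prop where
  empty : ∅ ∈ C
  sub : ∀ X Y : Set ℕ, X ⊆ Y → Y ∈ C → X ∈ C
  closed : ∀ X : Set ℕ, (∀ n : ℕ, X ∩ Iio n ∈ C) → X ∈ C

/-- Sum of two families. -/
def addFam (C D : Set (Set ℕ)) : Set (Set ℕ) := {X | ∃ Y ∈ C, ∃ Z ∈ D, X ⊆ Y ∪ Z}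

theorem IsFam.add {C D : Set (Set ℕ)} (hC : IsFam C) (hD : IsFam D) : IsFam (addFam C D) where
  empty := ⟨∅, hC.empty, ∅, hD.empty, by simp⟩
  sub := by
    rintro X Y hXY ⟨A, hA, B, hB, h⟩
    exact ⟨A, hA, B, hB, hXY.trans h⟩
  closed := by
    intro X hX
    choose f hf g hg hfg using hX
    let U : Ultrafilter ℕ := Filter.hyperfilter ℕ
    have hU : ∀ m : ℕ, ∀ᶠ k in (U : Filter ℕ), m < k := by
      intro m
      have : ∀ᶠ k in (Filter.cofinite : Filter ℕ), m < k := by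
        rw [Nat.cofinite_eq_atTop]; exact Filter.eventually_gt_atTop m
      exact Filter.hyperfilter_le_cofinite this
    have key : ∀ (C : Set (Set ℕ)) (hC : IsFam C) (f : ℕ → Set ℕ), (∀ n, f n ∈ C) →
        {m | ∀ᶠ k in (U : Filter ℕ), m ∈ f k} ∈ C := by
      intro C hC f hf
      refine hC.closed _ fun n => ?_
      have h1 : ∀ᶠ k in (U : Filter ℕ), ∀ m ∈ Finset.range n,
          (∀ᶠ k in (U : Filter ℕ), m ∈ f k) → m ∈ f k := by
        rw [Filter.eventually_all_finset]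
        intro m _
        by_cases h : ∀ᶠ k in (U : Filter ℕ), m ∈ f k
        · filter_upwards [h] with k hk _ using hk
        · exact Filter.Eventually.of_forall fun k h' => absurd h' h
      obtain ⟨k, hk⟩ := h1.exists
      refine hC.sub _ _ ?_ (hf k)
      rintro m ⟨hm, hmn⟩
      exact hk m (Finset.mem_range.2 hmn) hm
    refine ⟨_, key C hC f hf, _, key D hD g hg, ?_⟩
    intro m hm
    have h2 : ∀ᶠ k in (U : Filter ℕ), m ∈ f k ∨ m ∈ g k := by
      filter_upwards [hU m] with k hk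
      exact hfg k ⟨hm, hk⟩
    rcases Ultrafilter.eventually_or.1 h2 with h | h
    · exact Or.inl h
    · exact Or.inr h

/-- Iterated sums of a family. -/
def nsFam (K : Set (Set ℕ)) : ℕ → Set (Set ℕ)
  | 0 => {∅}
  | n + 1 => addFam K (nsFam K n)

theorem IsFam.singleton : IsFam {∅} where
  empty := rfl
  sub := by
    rintro X Y h rfl
    exact Set.subset_empty_iff.1 h
  closed := by
    intro X h
    rw [mem_singleton_iff]
    ext m
    constructor
    · intro hm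
      have := h (m + 1)
      rw [mem_singleton_iff] at this
      rw [← this]
      exact ⟨hm, by simp⟩
    · intro hm
      exact absurd hm (by simp)

theorem IsFam.ns {K : Set (Set ℕ)} (hK : IsFam K) (n : ℕ) : IsFam (nsFam K n) := by
  induction n with
  | zero => exact IsFam.singleton
  | succ n ih => exact hK.add ih

theorem nsFam_add {K : Set (Set ℕ)} {n m : ℕ} {X Y : Set ℕ}
    (hX : X ∈ nsFam K n) (hY : Y ∈ nsFam K m) : X ∪ Y ∈ nsFam K (n + m) := by
  induction n generalizing X with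
  | zero =>
    have : X = ∅ := hX
    subst this
    rw [Set.empty_union, Nat.zero_add]
    exact hY
  | succ n ih =>
    obtain ⟨A, hA, B, hB, h⟩ := hX
    have h1 := ih hB
    rw [Nat.add_right_comm]
    refine ⟨A, hA, B ∪ Y, h1, ?_⟩
    rw [← Set.union_assoc]
    exact Set.union_subset_union_left _ h

theorem nsFam_mono {K : Set (Set ℕ)} (hK : IsFam K) : Monotone (nsFam K) := by
  refine monotone_nat_of_le_succ fun n => ?_
  intro X hX
  exact ⟨∅, hK.empty, X, hX, by simp⟩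

/-- Ideals (possibly improper) containing the finite sets. -/
structure IsId (J : Set (Set ℕ)) : Prop where
  sub : ∀ X Y : Set ℕ, X ⊆ Y → Y ∈ J → X ∈ J
  union : ∀ X Y : Set ℕ, X ∈ J → Y ∈ J → X ∪ Y ∈ J
  fin : ∀ X : Set ℕ, X.Finite → X ∈ J

theorem IsId.diff_fin {J : Set (Set ℕ)} (hJ : IsId J) {A F : Set ℕ} (hF : F ∈ J)
    (h : A \ F ∈ J) : A ∈ J := by
  refine hJ.sub _ _ ?_ (hJ.union _ _ h hF)
  intro x hx
  by_cases hxF : x ∈ F
  · exact Or.inr hxF
  · exact Or.inl ⟨hx, hxF⟩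

theorem nsFam_sub {J K : Set (Set ℕ)} (hJ : IsId J) (hK : K ⊆ J) (n : ℕ) : nsFam K n ⊆ J := by
  induction n with
  | zero =>
    intro X hX
    have : X = ∅ := hX
    subst this
    exact hJ.fin _ Set.finite_empty
  | succ n ih =>
    rintro X ⟨A, hA, B, hB, h⟩
    exact hJ.sub _ _ h (hJ.union _ _ (hK hA) (ih hB))

/-- `J` is the increasing union of the families `C n`. -/
structure Rep (J : Set (Set ℕ)) (C : ℕ → Set (Set ℕ)) : Prop where
  fam : ∀ n, IsFam (C n)
  mono : Monotone C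
  eq : ∀ X, X ∈ J ↔ ∃ n, X ∈ C n

theorem IsFam.exists_cut {C : Set (Set ℕ)} (hC : IsFam C) {X : Set ℕ} (hX : X ∉ C) :
    ∃ n : ℕ, X ∩ Iio n ∉ C := by
  by_contra h
  push Not at h
  exact hX (hC.closed X h)

theorem blocks {J : Set (Set ℕ)} {C : ℕ → Set (Set ℕ)} (hJ : IsId J) (hC : Rep J C)
    (B : ℕ → Set ℕ) (hB : ∀ k, B k ∉ J) :
    ∃ k : ℕ → ℕ, StrictMono k ∧ k 0 = 0 ∧ ∀ i, B (k i) ∩ Ico (k i) (k (i + 1)) ∉ C i := by
  have step : ∀ i a : ℕ, ∃ b, a < b ∧ B a ∩ Ico a b ∉ C i := by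
    intro i a
    have h1 : B a \ Iio a ∉ C i := by
      intro h
      exact hB a (hJ.diff_fin (hJ.fin _ (Set.finite_Iio a)) ((hC.eq _).2 ⟨i, h⟩))
    obtain ⟨n, hn⟩ := (hC.fam i).exists_cut h1
    refine ⟨max n (a + 1), by omega, fun h => hn ?_⟩
    refine (hC.fam i).sub _ _ ?_ h
    rintro x ⟨⟨hx, hxa⟩, hxn⟩
    simp only [mem_Iio, not_lt] at hxa hxn
    exact ⟨hx, hxa, by omega⟩
  choose f hf1 hf2 using step
  let k : ℕ → ℕ := fun i => Nat.rec 0 (fun i a => f i a) i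
  have hk : ∀ i, k (i + 1) = f i (k i) := fun i => rfl
  refine ⟨k, strictMono_nat_of_lt_succ fun i => ?_, rfl, fun i => ?_⟩
  · rw [hk]; exact hf1 _ _
  · rw [hk]; exact hf2 _ _

theorem diag {J : Set (Set ℕ)} {C : ℕ → Set (Set ℕ)} (hJ : IsId J) (hC : Rep J C)
    (B : ℕ → Set ℕ) (hBa : Antitone B) (hB : ∀ k, B k ∉ J) :
    ∃ A, A ∉ J ∧ A ⊆ B 0 ∧ ∃ k : ℕ → ℕ, StrictMono k ∧ ∀ i, A \ Iio (k i) ⊆ B (k i) := by
  obtain ⟨k, hk, hk0, hkB⟩ := blocks hJ hC B hB
  refine ⟨⋃ i, B (k i) ∩ Ico (k i) (k (i + 1)), ?_, ?_, k, hk, ?_⟩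
  · intro h
    obtain ⟨n, hn⟩ := (hC.eq _).1 h
    exact hkB n ((hC.fam n).sub _ _ (subset_iUnion (fun i => B (k i) ∩ Ico (k i) (k (i + 1))) n) hn)
  · intro x hx
    obtain ⟨i, hi⟩ := mem_iUnion.1 hx
    exact hBa (Nat.zero_le _) hi.1
  · rintro i x ⟨hx, hxk⟩
    obtain ⟨j, hj⟩ := mem_iUnion.1 hx
    simp only [mem_Iio, not_lt] at hxk
    have h1 : k i < k (j + 1) := lt_of_le_of_lt hxk hj.2.2
    have h2 : i < j + 1 := hk.lt_iff_lt.1 h1
    exact hBa (hk.monotone (Nat.lt_succ_iff.1 h2)) hj.1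

/-- Conditions. -/
structure Cond where
  /-- the set -/
  A : Set ℕ
  /-- the ideal -/
  J : Set (Set ℕ)
  id : IsId J
  rep : ∃ C, Rep J C
  notMem : A ∉ J

/-- Order on conditions. -/
def Cond.le (c d : Cond) : Prop := (c.A \ d.A).Finite ∧ d.J ⊆ c.J

theorem Cond.le_refl (c : Cond) : c.le c := ⟨by simp, subset_rfl⟩

theorem Cond.le_trans {c d e : Cond} (h1 : c.le d) (h2 : d.le e) : c.le e := by
  refine ⟨(h1.1.union h2.1).subset ?_, h2.2.trans h1.2⟩
  intro x hx
  by_cases h : x ∈ d.A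
  · exact Or.inr ⟨h, hx.2⟩
  · exact Or.inl ⟨hx.1, h⟩

/-- Lower bounds of sequences. -/
theorem Cond.lb_seq (c : ℕ → Cond) (hc : ∀ n, (c (n + 1)).le (c n)) :
    ∃ d : Cond, ∀ n, d.le (c n) := by
  have hmono : ∀ n m, n ≤ m → (c m).le (c n) := by
    intro n m h
    induction m, h using Nat.le_induction with
    | base => exact Cond.le_refl _
    | succ m _ ih => exact Cond.le_trans (hc m) ih
  let J : Set (Set ℕ) := {X | ∃ n, X ∈ (c n).J}
  have hJ : IsId J := by
    refine ⟨?_, ?_, ?_⟩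
    · rintro X Y h ⟨n, hn⟩
      exact ⟨n, (c n).id.sub _ _ h hn⟩
    · rintro X Y ⟨n, hn⟩ ⟨m, hm⟩
      refine ⟨max n m, (c _).id.union _ _ ?_ ?_⟩
      · exact (hmono _ _ (le_max_left n m)).2 hn
      · exact (hmono _ _ (le_max_right n m)).2 hm
    · intro X hX
      exact ⟨0, (c 0).id.fin _ hX⟩
  choose R hR using fun n => (c n).rep
  have hun : ∀ (m : ℕ) (s : ℕ → Set (Set ℕ)), (∀ n, IsFam (s n)) →
      IsFam {X | ∃ i, i ≤ m ∧ X ∈ s i} := by
    intro m s hs
    induction m with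
    | zero =>
      have : {X | ∃ i, i ≤ 0 ∧ X ∈ s i} = s 0 := by
        ext X; simp
      rw [this]; exact hs 0
    | succ m ih =>
      refine ⟨⟨0, by omega, (hs 0).empty⟩, ?_, ?_⟩
      · rintro X Y h ⟨i, hi, hY⟩
        exact ⟨i, hi, (hs i).sub _ _ h hY⟩
      · intro X hX
        by_cases h : ∀ n : ℕ, X ∩ Iio n ∈ s (m + 1)
        · exact ⟨m + 1, le_rfl, (hs _).closed _ h⟩
        · push Not at h
          obtain ⟨n, hn⟩ := h
          have h2 : X ∈ {X | ∃ i, i ≤ m ∧ X ∈ s i} := by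
            refine ih.closed _ fun l => ?_
            obtain ⟨i, hi, hiX⟩ := hX (max n l)
            have hne : i ≠ m + 1 := by
              rintro rfl
              exact hn ((hs _).sub _ _ (inter_subset_inter_right _
                (Iio_subset_Iio (le_max_left _ _))) hiX)
            exact ⟨i, by omega, (hs _).sub _ _ (inter_subset_inter_right _
                (Iio_subset_Iio (le_max_right _ _))) hiX⟩
          obtain ⟨i, hi, hX⟩ := h2
          exact ⟨i, by omega, hX⟩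
  have hrep : Rep J (fun m => {X | ∃ i, i ≤ m ∧ X ∈ R i m}) := by
    refine ⟨fun m => ?_, ?_, ?_⟩
    · exact hun m (fun i => R i m) (fun i => (hR i).fam m)
    · intro a b hab X
      rintro ⟨i, hi, hX⟩
      exact ⟨i, hi.trans hab, (hR i).mono hab hX⟩
    · intro X
      constructor
      · rintro ⟨n, hn⟩
        obtain ⟨m, hm⟩ := ((hR n).eq X).1 hn
        exact ⟨max n m, n, le_max_left _ _, (hR n).mono (le_max_right _ _) hm⟩
      · rintro ⟨m, i, _, hX⟩
        exact ⟨i, ((hR i).eq X).2 ⟨m, hX⟩⟩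
  let B : ℕ → Set ℕ := fun n => {x | ∀ i, i ≤ n → x ∈ (c i).A}
  have hBa : Antitone B := by
    intro a b hab x hx i hi
    exact hx i (hi.trans hab)
  have hAJ : ∀ n, (c n).A ∉ J := by
    rintro n ⟨m, hm⟩
    have h1 : (c n).A ∈ (c (max n m)).J := (hmono _ _ (le_max_right n m)).2 hm
    have h2 : (c (max n m)).A ∈ (c (max n m)).J := by
      refine (c (max n m)).id.sub _ ((c (max n m)).A \ (c n).A ∪ (c n).A) ?_
        ((c _).id.union _ _ ((c _).id.fin _ (hmono n _ (le_max_left n m)).1) h1)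
      intro x hx
      by_cases h : x ∈ (c n).A
      · exact Or.inr h
      · exact Or.inl ⟨hx, h⟩
    exact (c _).notMem h2
  have hB : ∀ n, B n ∉ J := by
    intro n h
    have h1 : ((c n).A \ B n).Finite := by
      have : (⋃ i ∈ Finset.range (n + 1), ((c n).A \ (c i).A)).Finite := by
        refine Set.Finite.biUnion (Finset.finite_toSet _) ?_
        intro i hi
        exact (hmono i n (by simpa [Nat.lt_succ_iff] using hi)).1
      refine this.subset ?_
      rintro x ⟨hx, hxB⟩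
      have : ¬ ∀ i, i ≤ n → x ∈ (c i).A := hxB
      push Not at this
      obtain ⟨i, hi, hxi⟩ := this
      refine mem_biUnion (x := i) ?_ ⟨hx, hxi⟩
      simp; omega
    exact hAJ n (hJ.diff_fin h (hJ.fin _ h1))
  obtain ⟨A, hA, _, k, hk, hkA⟩ := diag hJ hrep B hBa hB
  refine ⟨⟨A, J, hJ, ⟨_, hrep⟩, hA⟩, fun n => ⟨?_, fun X hX => ⟨n, hX⟩⟩⟩
  refine (Set.finite_Iio (k n)).subset ?_
  rintro x ⟨hx, hxn⟩
  by_contra h
  exact hxn (hkA n ⟨hx, h⟩ n (hk.id_le n))

/-- Lower bounds of countable directed families. -/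
theorem Cond.lb_countable {ι : Type} [Countable ι] [Nonempty ι] (c : ι → Cond)
    (hc : ∀ i j, ∃ k, (c k).le (c i) ∧ (c k).le (c j)) : ∃ d : Cond, ∀ i, d.le (c i) := by
  classical
  obtain ⟨e, he⟩ := exists_surjective_nat ι
  choose m hm1 hm2 using hc
  let a : ℕ → ι := fun n => Nat.rec (e 0) (fun n i => m i (e (n + 1))) n
  have ha : ∀ n, a (n + 1) = m (a n) (e (n + 1)) := fun n => rfl
  obtain ⟨d, hd⟩ := Cond.lb_seq (fun n => c (a n)) (by intro n; rw [ha]; exact hm1 _ _)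
  refine ⟨d, fun i => ?_⟩
  obtain ⟨n, rfl⟩ := he i
  cases n with
  | zero => exact hd 0
  | succ n =>
    refine Cond.le_trans (hd (n + 1)) ?_
    rw [ha]; exact hm2 _ _

end Pool.Agent.MP_8214d2_lc
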