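import Mathlib

/-! Ideals on `ω`, the forcing `P(ω)/I`, the forcing relation, and Tukey reducibility in the
generic extension. -/

namespace Pool.Agent.MP_8214d2_lc

/-- A proper ideal of subsets of `ω` containing all finite sets. -/
structure IsIdeal (I : Set (Set ℕ)) : Prop where
  subset : ∀ A B : Set ℕ, A ⊆ B → B ∈ I → A ∈ I
  union : ∀ A B : Set ℕ, A ∈ I → B ∈ I → A ∪ B ∈ I
  finite : ∀ A : Set ℕ, A.Finite → A ∈ I
  proper : (Set.univ : Set ℕ) ∉ I

/-- `P(ω)/I` is atomless: for no `A ∉ I` is `I` restricted to `A` a maximal ideal on `A`. -/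
def Atomless (I : Set (Set ℕ)) : Prop :=
  ∀ A : Set ℕ, A ∉ I → ∃ B : Set ℕ, B ⊆ A ∧ B ∉ I ∧ A \ B ∉ I

/-- The conditions of the forcing notion `P(ω)/I`: the sets `A ⊆ ω` with `A ∉ I`. -/
def Pos (I : Set (Set ℕ)) : Type := {A : Set ℕ // A ∉ I}

/-- The order of `P(ω)/I`: `q ≤ p` (`q` extends `p`) when `q \ p ∈ I`. -/
instance (I : Set (Set ℕ)) : LE (Pos I) := ⟨fun q p => q.1 \ p.1 ∈ I⟩

section Forcing

variable {P : Type} [LE P]

/-- A statement of the forcing language of `P`, given by the set of conditions forcing it: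
`φ p` reads `p ⊩ φ`. -/
abbrev Stmt (P : Type) : Type := P → Prop

/-- A (nice) name for a subset of the ground model set `α`: the name `{(ǎ, s) : s ∈ τ a}`. -/
abbrev Name (P α : Type) : Type := α → Set P

/-- `p ⊩ φ` for a statement `φ` about the ground model. -/
def fTrue (φ : Prop) : Stmt P := fun _ => φ

/-- `p ⊩ φ ∧ ψ`. -/
def fAnd (φ ψ : Stmt P) : Stmt P := fun p => φ p ∧ ψ p

/-- `p ⊩ φ → ψ`. -/
def fImp (φ ψ : Stmt P) : Stmt P := fun p => ∀ q, q ≤ p → φ q → ψ q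

/-- `p ⊩ ¬ φ`. -/
def fNot (φ : Stmt P) : Stmt P := fun p => ∀ q, q ≤ p → ¬ φ q

/-- `p ⊩ ∀ x, φ x`, with `x` ranging over a ground model set, or over names. -/
def fAll {ι : Type} (φ : ι → Stmt P) : Stmt P := fun p => ∀ x, φ x p

/-- `p ⊩ ∃ x, φ x`, with `x` ranging over a ground model set, or over names. -/
def fEx {ι : Type} (φ : ι → Stmt P) : Stmt P := fun p => ∀ q, q ≤ p → ∃ r, r ≤ q ∧ ∃ x, φ x r

/-- `p ⊩ ǎ ∈ τ`. -/
def fMem {α : Type} (τ : Name P α) (a : α) : Stmt P :=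
  fun p => ∀ q, q ≤ p → ∃ r, r ≤ q ∧ ∃ s, s ∈ τ a ∧ r ≤ s

/-- `p ⊩` (`C` is a cofinal subset of `D`), where `D` is a family of sets directed by reverse
inclusion. -/
def fCofinal {S : Type} (C D : Set S → Stmt P) : Stmt P :=
  fAnd (fAll fun X => fImp (C X) (D X))
    (fAll fun X => fImp (D X) (fEx fun Y => fAnd (fTrue (Y ⊆ X)) (C Y)))

/-- `p ⊩` (`F` is a function from `D` to `E`). -/
def fFunction {S T : Type} (F : Set S × Set T → Stmt P) (D : Set S → Stmt P)
    (E : Set T → Stmt P) : Stmt P :=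
  fAnd (fAll fun X => fAll fun Y => fImp (F (X, Y)) (fAnd (D X) (E Y)))
    (fAnd (fAll fun X => fImp (D X) (fEx fun Y => F (X, Y)))
      (fAll fun X => fAll fun Y => fAll fun Y' =>
        fImp (fAnd (F (X, Y)) (F (X, Y'))) (fTrue (Y = Y'))))

/-- `p ⊩ E ≤_T D` for families of sets directed by reverse inclusion: some function `F : D → E`
sends every cofinal subset `C` of `D` to a cofinal subset of `E`. -/
def fTukeyLE {S T : Type} (E : Set T → Stmt P) (D : Set S → Stmt P) : Stmt P :=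
  fEx fun F : Name P (Set S × Set T) => fAnd (fFunction (fMem F) D E)
    (fAll fun C : Name P (Set S) => fImp (fCofinal (fMem C) D)
      (fCofinal (fun Y => fEx fun X => fAnd (fMem C X) (fMem F (X, Y))) E))

/-- `p ⊩ Z ∈ U · U`, that is, `{n | {m | (n, m) ∈ Z} ∈ U} ∈ U`. -/
def fProd (U : Set ℕ → Stmt P) : Set (ℕ × ℕ) → Stmt P := fun Z =>
  fEx fun N : Set ℕ => fAnd
    (fAll fun n => fAnd (fImp (fTrue (n ∈ N)) (U {m | (n, m) ∈ Z}))
      (fImp (U {m | (n, m) ∈ Z}) (fTrue (n ∈ N))))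
    (U N)

end Forcing

/-- `p ⊩ X ∈ U`, where `U` is the generic filter of `P(ω)/I`. -/
def genU (I : Set (Set ℕ)) : Set ℕ → Stmt (Pos I) := fMem fun X => {s | s.1 = X}

/-- Forcing with `P(ω)/I` adds no new subset of `ω`. -/
def NoNewReals (I : Set (Set ℕ)) : Prop :=
  ∀ τ : Name (Pos I) ℕ, ∀ p : Pos I, (fEx fun x : Set ℕ => fAll fun n =>
    fAnd (fImp (fMem τ n) (fTrue (n ∈ x))) (fImp (fTrue (n ∈ x)) (fMem τ n))) p

end Pool.Agent.MP_8214d2_lc
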