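import Pool.Agent.MP_8214d2_lc.Tasks

/-! The tree of conditions of height `ω₁`, the ideal it generates, and fusion. -/

namespace Pool.Agent.MP_8214d2_lc

open Set

/-- A well-ordered set of type `ω₁`. -/
abbrev W : Type := (Cardinal.aleph 1).ord.ToType

theorem W_countable_Iio (a : W) : (Iio a).Countable := by
  have h : Cardinal.mk (Iio a) < Cardinal.mk W := Cardinal.mk_Iio_lt a (by simp)
  rw [Cardinal.mk_ord_toType, Cardinal.lt_aleph_one_iff, Cardinal.le_aleph0_iff_set_countable] at h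
  exact h

theorem W_uncountable : ¬ (univ : Set W).Countable := by
  intro h
  rw [← Cardinal.le_aleph0_iff_set_countable, Cardinal.mk_univ, Cardinal.mk_ord_toType] at h
  exact absurd h (not_le.2 Cardinal.aleph0_lt_aleph_one)

theorem W_bdd (f : ℕ → W) : ∃ a, ∀ n, f n < a := by
  by_contra h
  push Not at h
  refine W_uncountable ((Set.countable_iUnion fun n =>
    ((W_countable_Iio (f n)).union (Set.countable_singleton (f n)))).mono ?_)
  intro a _
  obtain ⟨n, hn⟩ := h a
  refine mem_iUnion.2 ⟨n, ?_⟩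
  rcases hn.lt_or_eq with h | h
  · exact Or.inl h
  · exact Or.inr h

theorem W_gt (a : W) : ∃ b, a < b := by
  obtain ⟨b, hb⟩ := W_bdd fun _ => a
  exact ⟨b, hb 0⟩

/-- The trivial condition. -/
def Cond.triv : Cond where
  A := univ
  J := {X | X.Finite}
  id := ⟨fun _ _ h hY => hY.subset h, fun _ _ hX hY => hX.union hY, fun _ h => h⟩
  rep := by
    refine ⟨fun n => {X | X ⊆ Iio n}, ⟨fun n => ⟨empty_subset _, fun X Y h hY => h.trans hY, ?_⟩,
      ?_, ?_⟩⟩
    · intro X hX x hx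
      exact hX (x + 1) ⟨hx, by simp⟩
    · intro a b hab X hX
      exact hX.trans (Iio_subset_Iio hab)
    · intro X
      constructor
      · intro hX
        obtain ⟨b, hb⟩ := hX.bddAbove
        exact ⟨b + 1, fun x hx => Nat.lt_succ_of_le (hb hx)⟩
      · rintro ⟨n, hn⟩
        exact (Set.finite_Iio n).subset hn
  notMem := Set.infinite_univ

/-- The chosen successor step. -/
noncomputable def suc (c : Cond) : Set ℕ → Cond := c.succ.choose

theorem suc_le (c : Cond) (t : Set ℕ) : (suc c t).le c := c.succ.choose_spec.1 t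

theorem suc_ad (c : Cond) (t t' : Set ℕ) (h : t ≠ t') : ((suc c t).A ∩ (suc c t').A).Finite :=
  c.succ.choose_spec.2.1 t t' h

theorem suc_handles (c : Cond) (t : Set ℕ) : Handles (decY t) (decT t) (suc c t) :=
  c.succ.choose_spec.2.2 t

open Classical in
/-- A lower bound of a set of conditions, if there is one. -/
noncomputable def lb (S : Set Cond) : Cond :=
  if h : ∃ c : Cond, ∀ d ∈ S, c.le d then h.choose else Cond.triv

theorem lb_spec {S : Set Cond} (h : ∃ c : Cond, ∀ d ∈ S, c.le d) : ∀ d ∈ S, (lb S).le d := by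
  unfold lb
  rw [dif_pos h]
  exact h.choose_spec

/-- The node of the tree on the branch `x` at level `a`. -/
noncomputable def node (x : W → Set ℕ) (a : W) : Cond :=
  lb {d | ∃ b : W, ∃ _ : b < a, d = suc (node x b) (x b)}
termination_by a
decreasing_by assumption

theorem node_le_suc (x : W → Set ℕ) (a : W) : ∀ b, b < a → (node x a).le (suc (node x b) (x b)) := by
  induction a using WellFoundedLT.induction with
  | ind a ih =>
    have h : ∃ c : Cond, ∀ d ∈ {d | ∃ b : W, ∃ _ : b < a, d = suc (node x b) (x b)}, c.le d := by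
      by_cases hne : (Iio a).Nonempty
      · have : Nonempty (Iio a) := hne.to_subtype
        have : Countable (Iio a) := (W_countable_Iio a).to_subtype
        obtain ⟨d, hd⟩ := Cond.lb_countable (fun b : Iio a => suc (node x b.1) (x b.1)) (by
          have key : ∀ i j : Iio a, i.1 ≤ j.1 →
              (suc (node x j.1) (x j.1)).le (suc (node x i.1) (x i.1)) := by
            intro i j hij
            rcases hij.lt_or_eq with h | h
            · exact Cond.le_trans (suc_le _ _) (ih j.1 j.2 i.1 h)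
            · rw [h]; exact Cond.le_refl _
          intro i j
          rcases le_total i.1 j.1 with h | h
          · exact ⟨j, key i j h, Cond.le_refl _⟩
          · exact ⟨i, Cond.le_refl _, key j i h⟩)
        refine ⟨d, ?_⟩
        rintro e ⟨b, hb, rfl⟩
        exact hd ⟨b, hb⟩
      · refine ⟨Cond.triv, ?_⟩
        rintro e ⟨b, hb, rfl⟩
        exact absurd ⟨b, hb⟩ hne
    intro b hb
    rw [node]
    exact lb_spec h _ ⟨b, hb, rfl⟩

theorem node_le (x : W → Set ℕ) {a b : W} (h : b ≤ a) : (node x a).le (node x b) := by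
  rcases h.lt_or_eq with h | h
  · exact Cond.le_trans (node_le_suc x a b h) (suc_le _ _)
  · rw [h]; exact Cond.le_refl _

theorem node_congr {x y : W → Set ℕ} {a : W} (h : ∀ b, b < a → x b = y b) :
    node x a = node y a := by
  induction a using WellFoundedLT.induction with
  | ind a ih =>
    rw [node, node]
    congr 1
    ext d
    constructor
    · rintro ⟨b, hb, rfl⟩
      exact ⟨b, hb, by rw [ih b hb fun c hc => h c (hc.trans hb), h b hb]⟩
    · rintro ⟨b, hb, rfl⟩
      exact ⟨b, hb, by rw [ih b hb fun c hc => h c (hc.trans hb), h b hb]⟩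

theorem node_incomp {x y : W → Set ℕ} {a a' b : W} (hb : b < a) (hb' : b < a')
    (hxy : x b ≠ y b) (h : ∀ c, c < b → x c = y c) : ((node x a).A ∩ (node y a').A).Finite := by
  have h1 := (node_le_suc x a b hb).1
  have h2 := (node_le_suc y a' b hb').1
  rw [← node_congr h] at h2
  have h3 := suc_ad (node x b) _ _ hxy
  refine ((h1.union h2).union h3).subset ?_
  rintro m ⟨hm, hm'⟩
  by_cases h4 : m ∈ (suc (node x b) (x b)).A
  · by_cases h5 : m ∈ (suc (node x b) (y b)).A
    · exact Or.inr ⟨h4, h5⟩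
    · exact Or.inl (Or.inr ⟨hm', h5⟩)
  · exact Or.inl (Or.inl ⟨hm, h4⟩)

/-- Two nodes are comparable or almost disjoint. -/
theorem node_cases (x y : W → Set ℕ) (a a' : W) :
    (a ≤ a' ∧ ∀ c, c < a → x c = y c) ∨ (a' ≤ a ∧ ∀ c, c < a' → x c = y c) ∨
      ((node x a).A ∩ (node y a').A).Finite := by
  by_cases h : ∃ c, c < a ∧ c < a' ∧ x c ≠ y c
  · right; right
    obtain ⟨b, ⟨hb1, hb2, hb3⟩, hmin⟩ := WellFounded.has_min wellFounded_lt
      {c | c < a ∧ c < a' ∧ x c ≠ y c} h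
    refine node_incomp hb1 hb2 hb3 fun c hc => ?_
    by_contra hne
    exact hmin c ⟨hc.trans hb1, hc.trans hb2, hne⟩ hc
  · push Not at h
    rcases le_total a a' with h1 | h1
    · exact Or.inl ⟨h1, fun c hc => h c hc (hc.trans_le h1)⟩
    · exact Or.inr (Or.inl ⟨h1, fun c hc => h c (hc.trans_le h1) hc⟩)

/-- Ideals containing the small sets of every node, but no node. -/
structure Good (I : Set (Set ℕ)) : Prop where
  id : IsId I
  gen : ∀ x a X, X ⊆ (node x a).A → X ∈ (node x a).J → X ∈ I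
  notMem : ∀ x a, (node x a).A ∉ I

theorem exists_omit (x : W → Set ℕ) (a : W) : ∃ I, IsId I ∧
    (∀ y b X, X ⊆ (node y b).A → X ∈ (node y b).J → X ∈ I) ∧ (node x a).A ∉ I := by
  have key : ∀ {X : Set ℕ} {b b' : W}, b ≤ b' → X ∩ (node x b).A ∈ (node x b).J →
      X ∩ (node x b').A ∈ (node x b').J := by
    intro X b b' hb hX
    have h1 := node_le x hb
    refine (node x b').id.sub _ _ ?_ ((node x b').id.union _ _ ((node x b').id.fin _ h1.1)
      (h1.2 hX))
    rintro m ⟨hm, hm'⟩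
    by_cases h : m ∈ (node x b).A
    · exact Or.inr ⟨hm, h⟩
    · exact Or.inl ⟨hm', h⟩
  refine ⟨{X | ∃ b, a ≤ b ∧ X ∩ (node x b).A ∈ (node x b).J}, ⟨?_, ?_, ?_⟩, ?_, ?_⟩
  · rintro X Y hXY ⟨b, hb, h⟩
    exact ⟨b, hb, (node x b).id.sub _ _ (inter_subset_inter_left _ hXY) h⟩
  · rintro X Y ⟨b, hb, h⟩ ⟨b', hb', h'⟩
    refine ⟨max b b', hb.trans (le_max_left _ _), ?_⟩
    rw [Set.union_inter_distrib_right]
    exact (node x _).id.union _ _ (key (le_max_left _ _) h) (key (le_max_right _ _) h')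
  · intro X hX
    exact ⟨a, le_rfl, (node x a).id.fin _ (hX.subset inter_subset_left)⟩
  · intro y b X hX hXJ
    obtain ⟨a', ha'⟩ := W_gt (max a b)
    have h1 : a ≤ a' := ((le_max_left a b).trans_lt ha').le
    have h2 : b < a' := (le_max_right a b).trans_lt ha'
    refine ⟨a', h1, ?_⟩
    rcases node_cases y x b a' with ⟨h3, h4⟩ | ⟨h3, h4⟩ | h3
    · rw [node_congr h4] at hXJ
      exact (node x a').id.sub _ _ inter_subset_left ((node_le x h3).2 hXJ)
    · exact absurd h3 (not_le.2 h2)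
    · exact (node x a').id.fin _ (h3.subset (inter_subset_inter_left _ hX))
  · rintro ⟨b, hb, h⟩
    refine (node x b).notMem ?_
    refine (node x b).id.sub _ _ ?_ ((node x b).id.union _ _ ((node x b).id.fin _
      (node_le x hb).1) h)
    intro m hm
    by_cases h : m ∈ (node x a).A
    · exact Or.inr ⟨h, hm⟩
    · exact Or.inl ⟨hm, h⟩

theorem exists_good : ∃ I, Good I := by
  refine ⟨{X | ∀ I, IsId I → (∀ y b X, X ⊆ (node y b).A → X ∈ (node y b).J → X ∈ I) → X ∈ I},
    ⟨?_, ?_, ?_⟩, ?_, ?_⟩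
  · intro X Y hXY hY I hI hI2
    exact hI.sub _ _ hXY (hY I hI hI2)
  · intro X Y hX hY I hI hI2
    exact hI.union _ _ (hX I hI hI2) (hY I hI hI2)
  · intro X hX I hI hI2
    exact hI.fin _ hX
  · intro y b X h1 h2 I hI hI2
    exact hI2 y b X h1 h2
  · intro x a h
    obtain ⟨I, h1, h2, h3⟩ := exists_omit x a
    exact h3 (h I h1 h2)

theorem exists_max : ∃ I, Maximal Good I := by
  obtain ⟨I₀, hI₀⟩ := exists_good
  obtain ⟨I, _, hI⟩ := zorn_subset_nonempty {I | Good I} (by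
    intro c hc hchain hne
    refine ⟨⋃₀ c, ⟨⟨?_, ?_, ?_⟩, ?_, ?_⟩, fun s hs => subset_sUnion_of_mem hs⟩
    · rintro X Y hXY ⟨s, hs, hY⟩
      exact ⟨s, hs, (hc hs).id.sub _ _ hXY hY⟩
    · rintro X Y ⟨s, hs, hX⟩ ⟨s', hs', hY⟩
      rcases hchain.total hs hs' with h | h
      · exact ⟨s', hs', (hc hs').id.union _ _ (h hX) hY⟩
      · exact ⟨s, hs, (hc hs).id.union _ _ hX (h hY)⟩
    · intro X hX
      obtain ⟨s, hs⟩ := hne
      exact ⟨s, hs, (hc hs).id.fin _ hX⟩
    · intro x a X h1 h2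
      obtain ⟨s, hs⟩ := hne
      exact ⟨s, hs, (hc hs).gen _ _ _ h1 h2⟩
    · rintro x a ⟨s, hs, h⟩
      exact (hc hs).notMem _ _ h) I₀ hI₀
  exact ⟨I, hI⟩

theorem dense_nodes {I : Set (Set ℕ)} (hI : Maximal Good I) {X : Set ℕ} (hX : X ∉ I) :
    ∃ x a, (node x a).A \ X ∈ I := by
  by_contra hcon
  push Not at hcon
  have hg : Good {Y | Y \ X ∈ I} := by
    refine ⟨⟨?_, ?_, ?_⟩, ?_, hcon⟩
    · intro A B hAB hB
      exact hI.prop.id.sub _ _ (sdiff_subset_sdiff_left hAB) hB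
    · intro A B hA hB
      change (A ∪ B) \ X ∈ I
      rw [Set.union_sdiff_distrib]
      exact hI.prop.id.union _ _ hA hB
    · intro A hA
      exact hI.prop.id.fin _ (hA.subset sdiff_subset)
    · intro x a A h1 h2
      exact hI.prop.id.sub _ _ sdiff_subset (hI.prop.gen x a A h1 h2)
  have h1 : I ≤ {Y | Y \ X ∈ I} := fun Y hY => hI.prop.id.sub _ _ sdiff_subset hY
  have h2 := hI.le_of_ge hg h1
  refine hX (h2 ?_)
  change X \ X ∈ I
  rw [Set.sdiff_self]
  exact hI.prop.id.fin _ Set.finite_empty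

theorem diff_trans {I : Set (Set ℕ)} (hI : IsId I) {A B C : Set ℕ} (h1 : A \ B ∈ I)
    (h2 : B \ C ∈ I) : A \ C ∈ I := by
  refine hI.sub _ _ ?_ (hI.union _ _ h1 h2)
  rintro m ⟨hm, hm'⟩
  by_cases h : m ∈ B
  · exact Or.inr ⟨h, hm'⟩
  · exact Or.inl ⟨hm, h⟩

theorem extend_step {I : Set (Set ℕ)} (hI : Maximal Good I) (D : Set ℕ → Prop)
    (hDo : ∀ A B, A \ B ∈ I → A ∉ I → D B → D A)
    (hDd : ∀ B, B ∉ I → ∃ A, A ∉ I ∧ A \ B ∈ I ∧ D A) (x : W → Set ℕ) (a : W) :
    ∃ y b, a ≤ b ∧ (∀ c, c < a → y c = x c) ∧ D (node y b).A := by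
  obtain ⟨q, hq, hqa, hqD⟩ := hDd _ (hI.prop.notMem x a)
  obtain ⟨y, b, hyb⟩ := dense_nodes hI hq
  have hD : D (node y b).A := hDo _ _ hyb (hI.prop.notMem y b) hqD
  rcases node_cases x y a b with ⟨h1, h2⟩ | ⟨h1, h2⟩ | h1
  · exact ⟨y, b, h1, fun c hc => (h2 c hc).symm, hD⟩
  · refine ⟨x, a, le_rfl, fun _ _ => rfl, ?_⟩
    refine hDo _ _ (hI.prop.id.fin _ ?_) (hI.prop.notMem x a) hD
    rw [← node_congr h2]
    exact (node_le x h1).1
  · exfalso
    refine hI.prop.notMem y b ?_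
    have h2 := diff_trans hI.prop.id hyb hqa
    refine hI.prop.id.sub _ _ ?_ (hI.prop.id.union _ _ h2 (hI.prop.id.fin _ h1))
    intro m hm
    by_cases h : m ∈ (node x a).A
    · exact Or.inr ⟨h, hm⟩
    · exact Or.inl ⟨hm, h⟩

/-- Fusion. -/
theorem fusion {I : Set (Set ℕ)} (hI : Maximal Good I) {ι : Type} [Countable ι]
    (D : ι → Set ℕ → Prop)
    (hDo : ∀ i A B, A \ B ∈ I → A ∉ I → D i B → D i A)
    (hDd : ∀ i B, B ∉ I → ∃ A, A ∉ I ∧ A \ B ∈ I ∧ D i A) {X : Set ℕ} (hX : X ∉ I) :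
    ∃ x a, (node x a).A \ X ∈ I ∧ ∀ i, D i (node x a).A := by
  obtain ⟨x₀, a₀, h₀⟩ := dense_nodes hI hX
  rcases isEmpty_or_nonempty ι with hι | hι
  · exact ⟨x₀, a₀, h₀, fun i => (hι.false i).elim⟩
  obtain ⟨e, he⟩ := exists_surjective_nat ι
  have step := fun (n : ℕ) (p : (W → Set ℕ) × W) =>
    extend_step hI (D (e n)) (hDo (e n)) (hDd (e n)) p.1 p.2
  choose fy fb h1 h2 h3 using step
  let s : ℕ → (W → Set ℕ) × W := fun n => Nat.rec (x₀, a₀) (fun n p => (fy n p, fb n p)) n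
  have hs : ∀ n, s (n + 1) = (fy n (s n), fb n (s n)) := fun n => rfl
  have hs1 : ∀ n, (s n).2 ≤ (s (n + 1)).2 := fun n => h1 n (s n)
  have hs2 : ∀ n, ∀ c, c < (s n).2 → (s (n + 1)).1 c = (s n).1 c := fun n => h2 n (s n)
  have hs3 : ∀ n, D (e n) (node (s (n + 1)).1 (s (n + 1)).2).A := fun n => h3 n (s n)
  have hmono : Monotone fun n => (s n).2 := monotone_nat_of_le_succ hs1
  have hagree : ∀ n m, n ≤ m → ∀ c, c < (s n).2 → (s m).1 c = (s n).1 c := by
    intro n m hnm
    induction m, hnm using Nat.le_induction with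
    | base => intro c _; rfl
    | succ m hnm ih =>
      intro c hc
      rw [hs2 m c (hc.trans_le (hmono hnm)), ih c hc]
  obtain ⟨b, hb⟩ := W_bdd fun n => (s n).2
  classical
  let x : W → Set ℕ := fun c => if h : ∃ n, c < (s n).2 then (s (Nat.find h)).1 c else ∅
  have hx : ∀ n c, c < (s n).2 → x c = (s n).1 c := by
    intro n c hc
    have h : ∃ n, c < (s n).2 := ⟨n, hc⟩
    have h4 : x c = (s (Nat.find h)).1 c := dif_pos h
    rw [h4, hagree _ n (Nat.find_min' h hc) c (Nat.find_spec h)]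
  have hnode : ∀ n, (node x b).le (node (s n).1 (s n).2) := by
    intro n
    rw [← node_congr (hx n)]
    exact node_le x (hb n).le
  refine ⟨x, b, ?_, fun i => ?_⟩
  · exact diff_trans hI.prop.id (hI.prop.id.fin _ (hnode 0).1) h₀
  · obtain ⟨n, rfl⟩ := he i
    exact hDo _ _ _ (hI.prop.id.fin _ (hnode (n + 1)).1) (hI.prop.notMem _ _) (hs3 n)

end Pool.Agent.MP_8214d2_lc
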