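import Pool.Agent.MP_8214d2_lc.Defs
import Pool.Agent.MP_8214d2_lc.Tree

/-! The generic ultrafilter added by the constructed ideal is not Tukey idempotent. -/

namespace Pool.Agent.MP_8214d2_lc

open Set

theorem W_nonempty : Nonempty W := by
  by_contra h
  rw [not_nonempty_iff] at h
  exact W_uncountable (Set.countable_univ)

theorem IsId.biUnion {J : Set (Set ℕ)} (hJ : IsId J) {ι : Type} (s : Finset ι)
    (f : ι → Set ℕ) (h : ∀ i ∈ s, f i ∈ J) : (⋃ i ∈ s, f i) ∈ J := by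
  classical
  induction s using Finset.induction_on with
  | empty => simpa using hJ.fin _ Set.finite_empty
  | insert a s ha ih =>
    rw [Finset.set_biUnion_insert]
    exact hJ.union _ _ (h a (Finset.mem_insert_self _ _))
      (ih fun i hi => h i (Finset.mem_insert_of_mem hi))

theorem IsId.inter_diff {J : Set (Set ℕ)} (hJ : IsId J) {A B C : Set ℕ} (h1 : A \ B ∈ J)
    (h2 : A \ C ∈ J) : A \ (B ∩ C) ∈ J := by
  refine hJ.sub _ _ ?_ (hJ.union _ _ h1 h2)
  rintro m ⟨hm, hm'⟩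
  by_cases h : m ∈ B
  · exact Or.inr ⟨hm, fun h' => hm' ⟨h, h'⟩⟩
  · exact Or.inl ⟨hm, h⟩

theorem Good.isIdeal {I : Set (Set ℕ)} (hI : Good I) : IsIdeal I where
  subset := hI.id.sub
  union := hI.id.union
  finite := hI.id.fin
  proper := by
    intro h
    obtain ⟨a⟩ := W_nonempty
    exact hI.notMem (fun _ => ∅) a (hI.id.sub _ _ (subset_univ _) h)

theorem atomless {I : Set (Set ℕ)} (hI : Maximal Good I) : Atomless I := by
  intro X hX
  obtain ⟨x, a, hxa⟩ := dense_nodes hI hX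
  obtain ⟨b, hb⟩ := W_gt a
  have hid := hI.prop.id
  let y : Set ℕ → W → Set ℕ := fun t c => if c < a then x c else t
  have hy : ∀ t, (node (y t) b).A \ X ∈ I := by
    intro t
    refine diff_trans hid (hid.fin _ (node_le (y t) hb.le).1) ?_
    have : node (y t) a = node x a := node_congr fun c hc => if_pos hc
    rw [this]
    exact hxa
  have hne : (∅ : Set ℕ) ≠ univ := Set.empty_ne_univ
  have hfin : ((node (y ∅) b).A ∩ (node (y univ) b).A).Finite := by
    refine node_incomp hb hb ?_ ?_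
    · change (if a < a then x a else ∅) ≠ (if a < a then x a else univ)
      rw [if_neg (lt_irrefl _), if_neg (lt_irrefl _)]
      exact hne
    · intro c hc
      change (if c < a then x c else ∅) = (if c < a then x c else univ)
      rw [if_pos hc, if_pos hc]
  refine ⟨X ∩ (node (y ∅) b).A, inter_subset_left, fun h => ?_, fun h => ?_⟩
  · refine hI.prop.notMem (y ∅) b (hid.sub _ _ ?_ (hid.union _ _ h (hy ∅)))
    intro m hm
    by_cases hmX : m ∈ X
    · exact Or.inl ⟨hmX, hm⟩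
    · exact Or.inr ⟨hm, hmX⟩
  · refine hI.prop.notMem (y univ) b (hid.sub _ _ ?_
      (hid.union _ _ (hid.union _ _ h (hy univ)) (hid.fin _ hfin)))
    intro m hm
    by_cases hmX : m ∈ X
    · by_cases hm2 : m ∈ (node (y ∅) b).A
      · exact Or.inr ⟨hm2, hm⟩
      · exact Or.inl (Or.inl ⟨hmX, fun h => hm2 h.2⟩)
    · exact Or.inl (Or.inr ⟨hm, hmX⟩)

section Pos

variable {I : Set (Set ℕ)}

theorem pos_refl (hI : IsId I) (p : Pos I) : p ≤ p := by
  change p.1 \ p.1 ∈ I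
  rw [Set.sdiff_self]
  exact hI.fin _ Set.finite_empty

theorem pos_trans (hI : IsId I) {p q r : Pos I} (h1 : p ≤ q) (h2 : q ≤ r) : p ≤ r :=
  diff_trans hI h1 h2

theorem mem_mono (hI : IsId I) {α : Type} {τ : Name (Pos I) α} {a : α} {p q : Pos I}
    (h : q ≤ p) (hp : fMem τ a p) : fMem τ a q :=
  fun r hr => hp r (pos_trans hI hr h)

theorem genU_iff (hI : IsId I) {X : Set ℕ} {p : Pos I} : genU I X p ↔ p.1 \ X ∈ I := by
  constructor
  · intro h
    by_contra hX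
    obtain ⟨r, hr, s, hs, hrs⟩ := h ⟨p.1 \ X, hX⟩ (by
      change (p.1 \ X) \ p.1 ∈ I
      refine hI.sub _ _ ?_ (hI.fin _ Set.finite_empty)
      rintro m ⟨⟨h1, _⟩, h2⟩
      exact absurd h1 h2)
    have hs' : s.1 = X := hs
    have h1 : r.1 \ X ∈ I := by
      rw [← hs']; exact hrs
    have h2 : r.1 \ (p.1 \ X) ∈ I := hr
    refine r.2 (hI.sub _ _ ?_ (hI.union _ _ h1 h2))
    intro m hm
    by_cases h : m ∈ X
    · exact Or.inr ⟨hm, fun h' => h'.2 h⟩
    · exact Or.inl ⟨hm, h⟩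
  · intro h q hq
    have h1 : q.1 \ X ∈ I := diff_trans hI hq h
    have hX : X ∉ I := by
      intro hX
      exact q.2 (hI.diff_fin hX h1)
    exact ⟨q, pos_refl hI q, ⟨X, hX⟩, rfl, h1⟩

/-- Fusion for countably many statements of the forcing language. -/
theorem decide (hI : Maximal Good I) {ι : Type} [Countable ι] (Ψ : ι → Stmt (Pos I))
    (hΨ : ∀ i (p q : Pos I), q ≤ p → Ψ i p → Ψ i q) (p : Pos I) :
    ∃ x a, ∃ ν : Pos I, ν.1 = (node x a).A ∧ ν ≤ p ∧ ∀ i, Ψ i ν ∨ fNot (Ψ i) ν := by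
  have hid := hI.prop.id
  obtain ⟨x, a, h1, h2⟩ := fusion hI (fun i A => ∀ h : A ∉ I, Ψ i ⟨A, h⟩ ∨ fNot (Ψ i) ⟨A, h⟩) (by
    intro i A B hAB hA hD hA'
    have hB : B ∉ I := by
      intro hB
      exact hA (hid.diff_fin hB hAB)
    rcases hD hB with h | h
    · exact Or.inl (hΨ i ⟨B, hB⟩ ⟨A, hA'⟩ hAB h)
    · exact Or.inr fun q hq => h q (pos_trans hid hq hAB)) (by
    intro i B hB
    by_cases h : ∃ q : Pos I, q ≤ ⟨B, hB⟩ ∧ Ψ i q
    · obtain ⟨q, hq, hqΨ⟩ := h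
      exact ⟨q.1, q.2, hq, fun _ => Or.inl hqΨ⟩
    · refine ⟨B, hB, pos_refl hid ⟨B, hB⟩, fun _ => Or.inr fun q hq hqΨ => h ⟨q, hq, hqΨ⟩⟩) p.2
  exact ⟨x, a, ⟨_, hI.prop.notMem x a⟩, rfl, h1, fun i => h2 i _⟩

theorem noNewReals (hI : Maximal Good I) : NoNewReals I := by
  have hid := hI.prop.id
  intro τ p q hq
  obtain ⟨x, a, ν, _, h2, h3⟩ := decide hI (fun n : ℕ => fMem τ n)
    (fun n p q h hp => mem_mono hid h hp) q
  refine ⟨ν, h2, {n | fMem τ n ν}, fun n => ⟨?_, ?_⟩⟩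
  · intro r hr hrn
    rcases h3 n with h | h
    · exact h
    · exact absurd hrn (h r hr)
  · intro r hr hrn
    exact mem_mono hid hr hrn

/-- An auxiliary relation. -/
def G (Z : Set (ℕ × ℕ)) (n m : ℕ) : Prop := ∀ n' m', n ≤ n' → (n', m') ∈ Z → m ≤ m'

theorem not_tukey (hI : Maximal Good I) (p : Pos I) :
    ¬ fTukeyLE (fProd (genU I)) (genU I) p := by
  classical
  have hid := hI.prop.id
  intro hp
  obtain ⟨r, hr, F, hF, hC⟩ := hp p (pos_refl hid p)
  have hF1 : ∀ X Y q, q ≤ r → fMem F (X, Y) q → genU I X q ∧ fProd (genU I) Y q :=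
    fun X Y q hq h => hF.1 X Y q hq h
  have hF2 : ∀ X q, q ≤ r → genU I X q → ∀ q', q' ≤ q → ∃ r', r' ≤ q' ∧ ∃ Y, fMem F (X, Y) r' :=
    fun X q hq h => hF.2.1 X q hq h
  have hF3 : ∀ X Y Y' q, q ≤ r → fMem F (X, Y) q → fMem F (X, Y') q → Y = Y' :=
    fun X Y Y' q hq h1 h2 => hF.2.2 X Y Y' q hq ⟨h1, h2⟩
  -- the statements to be decided
  let B : Finset ℕ × ℕ × ℕ → Stmt (Pos I) := fun i q => ∃ Y : Set ℕ, genU I Y q ∧
    ∀ q', q' ≤ q → ∀ (X' : Set ℕ) (Z : Set (ℕ × ℕ)), X' ⊆ (i.1 : Set ℕ) ∪ Y →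
      fMem F (X', Z) q' → G Z i.2.1 i.2.2
  have hBmono : ∀ i (p q : Pos I), q ≤ p → B i p → B i q := by
    rintro i p q hqp ⟨Y, hY, h⟩
    refine ⟨Y, mem_mono hid hqp hY, fun q' hq' => h q' (pos_trans hid hq' hqp)⟩
  obtain ⟨x, a, ν, hν, hνr, hdec⟩ := decide hI B hBmono r
  let T : Finset ℕ → ℕ → ℕ → Prop := fun s n m => B (s, n, m) ν
  have hw : ∀ s n m, ∃ Y : Set ℕ, T s n m → (genU I Y ν ∧
    ∀ q', q' ≤ ν → ∀ (X' : Set ℕ) (Z : Set (ℕ × ℕ)), X' ⊆ (s : Set ℕ) ∪ Y →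
      fMem F (X', Z) q' → G Z n m) := by
    intro s n m
    by_cases h : T s n m
    · obtain ⟨Y, hY⟩ := h
      exact ⟨Y, fun _ => hY⟩
    · exact ⟨∅, fun h' => absurd h' h⟩
  choose w hw using hw
  let Y : ℕ → Set ℕ := fun k => {j | ∀ s n m, s ⊆ Finset.range k → n ≤ k → m ≤ k → T s n m →
    j ∈ w s n m}
  have hYa : Antitone Y := by
    intro k l hkl j hj s n m hs hn hm hT
    exact hj s n m (hs.trans (Finset.range_subset_range.2 hkl)) (hn.trans hkl) (hm.trans hkl) hT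
  have hYν : ∀ k, ν.1 \ Y k ∈ I := by
    intro k
    refine hid.sub _ _ ?_ (hid.biUnion
      (((Finset.range k).powerset ×ˢ Finset.range (k + 1) ×ˢ Finset.range (k + 1)).filter
        (fun i : Finset ℕ × ℕ × ℕ => T i.1 i.2.1 i.2.2))
      (fun i => ν.1 \ w i.1 i.2.1 i.2.2) ?_)
    · rintro j ⟨hj, hjY⟩
      have : ¬ ∀ s n m, s ⊆ Finset.range k → n ≤ k → m ≤ k → T s n m → j ∈ w s n m := hjY
      push Not at this
      obtain ⟨s, n, m, hs, hn, hm, hT, hjw⟩ := this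
      refine mem_biUnion (x := (s, n, m)) ?_ ⟨hj, hjw⟩
      simp only [Finset.coe_filter, Finset.mem_product, Finset.mem_powerset, Finset.mem_range,
        mem_ofPred_eq]
      exact ⟨⟨hs, by omega, by omega⟩, hT⟩
    · intro i hi
      rw [Finset.mem_filter] at hi
      exact (genU_iff hid).1 (hw _ _ _ hi.2).1
  obtain ⟨t, htY, htT⟩ := exists_code Y T
  obtain ⟨hP, hK⟩ := suc_handles (node x a) t
  rw [htY] at hP
  rw [htT] at hK
  -- the node above the task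
  obtain ⟨b, hb⟩ := W_gt a
  let y : W → Set ℕ := fun c => if c < a then x c else t
  have hya : node y a = node x a := node_congr fun c hc => if_pos hc
  have hyt : y a = t := if_neg (lt_irrefl a)
  have hle : (node y b).le (suc (node x a) t) := by
    have := node_le_suc y b a hb
    rw [hya, hyt] at this
    exact this
  generalize hE : suc (node x a) t = E at hP hK hle
  let μ : Pos I := ⟨(node y b).A, hI.prop.notMem y b⟩
  have hμν : μ ≤ ν := by
    change (node y b).A \ ν.1 ∈ I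
    rw [hν, ← hya]
    exact hid.fin _ (node_le y hb.le).1
  have hμr : μ ≤ r := pos_trans hid hμν hνr
  have hμE : μ.1 \ E.A ∈ I := hid.fin _ hle.1
  have hP' : ∀ N : ℕ, ∃ k : ℕ, N ≤ k ∧ E.A \ Iio k ⊆ Y k := by
    rcases hP hYa with ⟨k, hk⟩ | h
    · exfalso
      refine μ.2 (hid.sub _ _ ?_ (hid.union _ _ (hid.union _ _ hμE (hid.fin _ hk))
        (diff_trans hid hμν (hYν k))))
      intro m hm
      by_cases h1 : m ∈ E.A
      · by_cases h2 : m ∈ Y k
        · exact Or.inl (Or.inr ⟨h1, h2⟩)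
        · exact Or.inr ⟨hm, h2⟩
      · exact Or.inl (Or.inl ⟨hm, h1⟩)
    · exact h
  have hTmono : ∀ s n m m', m' ≤ m → T s n m → T s n m' := by
    rintro s n m m' hm ⟨V, hV, h⟩
    exact ⟨V, hV, fun q' hq' X' Z hX' hZ n' m'' h1 h2 =>
      hm.trans (h q' hq' X' Z hX' hZ n' m'' h1 h2)⟩
  rcases hK hTmono with ⟨n, hn⟩ | ⟨h, hh⟩
  · -- first case
    obtain ⟨r', hr', Z, hZ⟩ := hF2 E.A μ hμr ((genU_iff hid).2 hμE) μ (pos_refl hid μ)
    have hr'r : r' ≤ r := pos_trans hid hr' hμr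
    obtain ⟨r₂, hr₂, N, hN1, hN2⟩ := (hF1 _ _ _ hr'r hZ).2 r' (pos_refl hid r')
    have hN2' := (genU_iff hid).1 hN2
    obtain ⟨n', hn'N, hn'n⟩ : ∃ n', n' ∈ N ∧ n ≤ n' := by
      by_contra hcon
      push Not at hcon
      exact r₂.2 (hid.diff_fin (hid.fin _ ((Set.finite_Iio n).subset hcon)) hN2')
    have h1 := (genU_iff hid).1 ((hN1 n').1 r₂ (pos_refl hid r₂) hn'N)
    obtain ⟨m', hm'⟩ : ∃ m', (n', m') ∈ Z := by
      by_contra hcon
      push Not at hcon
      refine r₂.2 (hid.diff_fin (F := {m | (n', m) ∈ Z}) ?_ h1)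
      refine hid.sub _ ∅ ?_ (hid.fin _ Set.finite_empty)
      intro m hm
      exact absurd hm (hcon m)
    obtain ⟨k, hk, hkY⟩ := hP' (max n (m' + 1))
    have hsub : (((Finset.range k).filter (· ∈ E.A) : Finset ℕ) : Set ℕ) ⊆ E.A := by
      intro j hj
      exact (Finset.mem_filter.1 hj).2
    have hT : T ((Finset.range k).filter (· ∈ E.A)) n (m' + 1) := hn _ hsub _
    have h2 := (hw _ _ _ hT).2 r' (pos_trans hid hr' hμν) E.A Z (by
      intro j hj
      by_cases hjk : j < k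
      · left
        exact Finset.mem_coe.2 (Finset.mem_filter.2 ⟨Finset.mem_range.2 hjk, hj⟩)
      · right
        exact hkY ⟨hj, hjk⟩ _ _ _ (Finset.filter_subset _ _) (by omega) (by omega) hT) hZ
    have h3 := h2 n' m' hn'n hm'
    omega
  · -- second case
    let V : Set (ℕ × ℕ) := {z | ∀ i, i ≤ z.1 → h i ≤ z.2}
    have hV : fProd (genU I) V μ := by
      intro q hq
      refine ⟨q, pos_refl hid q, univ, fun n => ⟨fun r hr _ => ?_, fun r hr _ => mem_univ n⟩, ?_⟩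
      · rw [genU_iff hid]
        refine hid.fin _ ?_
        obtain ⟨c, hc⟩ := ((Finset.range (n + 1)).image h).exists_nat_subset_range
        refine (Set.finite_Iio c).subset ?_
        rintro j ⟨_, hj⟩
        have : ¬ ∀ i, i ≤ n → h i ≤ j := hj
        push Not at this
        obtain ⟨i, hi, hij⟩ := this
        have h4 : h i ∈ Finset.range c := hc (Finset.mem_image_of_mem _
          (Finset.mem_range.2 (by omega)))
        have h5 := Finset.mem_range.1 h4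
        exact hij.trans h5
      · rw [genU_iff hid]
        exact hid.fin _ (by simp)
    have hconv : ∃ q, q ≤ μ ∧ ∃ X : Set ℕ, genU I X q ∧ ∀ q', q' ≤ q →
        ∀ (X' : Set ℕ) (Z : Set (ℕ × ℕ)), X' ⊆ X → fMem F (X', Z) q' → Z ⊆ V := by
      by_contra hcon
      push Not at hcon
      let C : Name (Pos I) (Set ℕ) := fun X' => {q | q ≤ μ ∧ ∃ Z, fMem F (X', Z) q ∧ ¬ Z ⊆ V}
      have hcof : fCofinal (fMem C) (genU I) μ := by
        refine ⟨fun X' q hq hX' q₁ hq₁ => ?_, fun X q hq hX q₁ hq₁ => ?_⟩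
        · obtain ⟨r₁, hr₁, s, ⟨hs1, Z, hZ, _⟩, hr₁s⟩ := hX' q₁ hq₁
          have h4 := (hF1 _ _ _ (pos_trans hid hs1 hμr) hZ).1 r₁ hr₁s
          obtain ⟨r₂, hr₂, h5⟩ := h4
          exact ⟨r₂, pos_trans hid hr₂ hr₁, h5⟩
        · obtain ⟨q', hq', X', Z, hX'X, hZ, hZV⟩ := hcon q₁ (pos_trans hid hq₁ hq) X
            (mem_mono hid hq₁ hX)
          refine ⟨q', hq', X', hX'X, fun q₂ hq₂ => ⟨q₂, pos_refl hid q₂, q', ⟨?_, Z, hZ, hZV⟩,
            hq₂⟩⟩
          exact pos_trans hid hq' (pos_trans hid hq₁ hq)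
      have himg := hC C μ hμr hcof
      obtain ⟨r₁, hr₁, Z, hZV, hZ⟩ := himg.2 V μ (pos_refl hid μ) hV μ (pos_refl hid μ)
      obtain ⟨r₂, hr₂, X', hX'C, hX'F⟩ := hZ r₁ (pos_refl hid r₁)
      obtain ⟨r₃, hr₃, s, ⟨_, Z', hZ', hZ'V⟩, hr₃s⟩ := hX'C r₂ (pos_refl hid r₂)
      have h6 : r₃ ≤ r := pos_trans hid hr₃ (pos_trans hid hr₂ (pos_trans hid hr₁ hμr))
      have h7 := hF3 X' Z Z' r₃ h6 (mem_mono hid hr₃ hX'F) (mem_mono hid hr₃s hZ')
      exact hZ'V (h7 ▸ hZV)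
    obtain ⟨q, hq, X, hX, hXF⟩ := hconv
    have hqE : q.1 \ (X ∩ E.A) ∈ I :=
      hid.inter_diff ((genU_iff hid).1 hX) (diff_trans hid hq hμE)
    have hYJ : X ∩ E.A ∈ E.J := by
      refine hh _ inter_subset_right fun n s hs => ?_
      rcases hdec (s, n, h n) with h1 | h1
      · exact h1
      · refine absurd ?_ (h1 q (pos_trans hid hq hμν))
        refine ⟨X ∩ E.A, (genU_iff hid).2 hqE, fun q' hq' X' Z hX' hZ => ?_⟩
        have h2 : Z ⊆ V := hXF q' hq' X' Z (by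
          intro j hj
          rcases hX' hj with h3 | h3
          · exact (hs h3).1
          · exact h3.1) hZ
        intro n' m' hn' hm'
        exact h2 hm' n hn'
    have h8 : (X ∩ E.A) ∩ (node y b).A ∈ I :=
      hI.prop.gen y b _ inter_subset_right ((node y b).id.sub _ _ inter_subset_left (hle.2 hYJ))
    have hqμ : q.1 \ (node y b).A ∈ I := hq
    have h9 := hid.inter_diff hqE hqμ
    exact q.2 (hid.diff_fin h8 h9)

end Pos

theorem main : ∃ I : Set (Set ℕ), IsIdeal I ∧ Atomless I ∧ NoNewReals I ∧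
    ∀ p : Pos I, ¬ fTukeyLE (fProd (genU I)) (genU I) p := by
  obtain ⟨I, hI⟩ := exists_max
  exact ⟨I, hI.prop.isIdeal, atomless hI, noNewReals hI, not_tukey hI⟩

end Pool.Agent.MP_8214d2_lc
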