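import Pool.Agent.MP_8214d2_lc.Cond

/-! Splitting a condition into an almost disjoint family, and the two tasks. -/

namespace Pool.Agent.MP_8214d2_lc

open Set

/-- An almost disjoint family of infinite sets indexed by `Set ℕ`. -/
theorem exists_ad : ∃ D : Set ℕ → Set ℕ, (∀ t, (D t).Infinite) ∧
    ∀ t t', t ≠ t' → (D t ∩ D t').Finite := by
  classical
  let c : Set ℕ → ℕ → ℕ := fun t n =>
    Encodable.encode (n, (Finset.range n).filter (· ∈ t))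
  have hc : ∀ t t' n m, c t n = c t' m →
      n = m ∧ (Finset.range n).filter (· ∈ t) = (Finset.range m).filter (· ∈ t') := by
    intro t t' n m h
    have := Encodable.encode_injective h
    exact Prod.mk.inj this
  refine ⟨fun t => range (c t), fun t => infinite_range_of_injective fun n m h => (hc _ _ _ _ h).1,
    fun t t' htt => ?_⟩
  obtain ⟨i, hi⟩ : ∃ i, ¬ (i ∈ t ↔ i ∈ t') := by
    by_contra h
    push Not at h
    exact htt (Set.ext h)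
  refine ((Set.finite_Iic i).image (c t)).subset ?_
  rintro x ⟨⟨n, rfl⟩, ⟨m, hm⟩⟩
  refine ⟨n, ?_, rfl⟩
  by_contra hn
  simp only [mem_Iic, not_le] at hn
  obtain ⟨h1, h2⟩ := hc _ _ _ _ hm
  subst h1
  apply hi
  have h3 := Finset.ext_iff.1 h2 i
  simp only [Finset.mem_filter, Finset.mem_range, hn, true_and] at h3
  exact h3.symm

/-- Splitting. -/
theorem Cond.split (c : Cond) : ∃ p : Set ℕ → Set ℕ, (∀ t, p t ⊆ c.A) ∧ (∀ t, p t ∉ c.J) ∧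
    ∀ t t', t ≠ t' → (p t ∩ p t').Finite := by
  obtain ⟨C, hC⟩ := c.rep
  obtain ⟨k, hk, hk0, hkA⟩ := blocks c.id hC (fun _ => c.A) (fun _ => c.notMem)
  obtain ⟨D, hD1, hD2⟩ := exists_ad
  refine ⟨fun t => {x | ∃ i, i ∈ D t ∧ x ∈ c.A ∩ Ico (k i) (k (i + 1))}, ?_, ?_, ?_⟩
  · rintro t x ⟨i, hi, hx⟩
    exact hx.1
  · intro t h
    obtain ⟨n, hn⟩ := (hC.eq _).1 h
    obtain ⟨j, hj, hnj⟩ := (hD1 t).exists_gt n
    refine hkA j (hC.mono hnj.le ((hC.fam n).sub _ _ ?_ hn))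
    intro x hx
    exact ⟨j, hj, hx⟩
  · intro t t' htt
    refine Set.Finite.subset (Set.Finite.biUnion (hD2 t t' htt)
      (fun i _ => Set.finite_Iio (k (i + 1)))) ?_
    rintro x ⟨⟨i, hi, hx⟩, ⟨j, hj, hx'⟩⟩
    have hij : i = j := by
      have h1 : k i < k (j + 1) := lt_of_le_of_lt hx.2.1 hx'.2.2
      have h2 : k j < k (i + 1) := lt_of_le_of_lt hx'.2.1 hx.2.2
      have h3 := hk.lt_iff_lt.1 h1
      have h4 := hk.lt_iff_lt.1 h2
      omega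
    subst hij
    exact mem_biUnion (x := i) ⟨hi, hj⟩ hx.2.2

/-- The first task. -/
theorem Cond.taskP (c : Cond) (Y : ℕ → Set ℕ) (hY : Antitone Y) :
    ∃ A', A' ⊆ c.A ∧ A' ∉ c.J ∧
      ((∃ k, (A' ∩ Y k).Finite) ∨ ∀ N : ℕ, ∃ k : ℕ, N ≤ k ∧ A' \ Iio k ⊆ Y k) := by
  by_cases h : ∃ k, c.A \ Y k ∉ c.J
  · obtain ⟨k, hk⟩ := h
    refine ⟨_, sdiff_subset, hk, Or.inl ⟨k, ?_⟩⟩
    have : c.A \ Y k ∩ Y k = ∅ := by
      ext x; simp only [mem_inter_iff, mem_sdiff, mem_empty_iff_false, iff_false]; tauto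
    rw [this]; exact Set.finite_empty
  · push Not at h
    obtain ⟨C, hC⟩ := c.rep
    obtain ⟨A', hA', hA'0, k, hk, hkA⟩ := diag c.id hC (fun k => c.A ∩ Y k)
      (fun a b hab => inter_subset_inter_right _ (hY hab))
      (fun k hk => c.notMem (by
        refine c.id.sub _ _ ?_ (c.id.union _ _ hk (h k))
        intro x hx
        by_cases hxY : x ∈ Y k
        · exact Or.inl ⟨hx, hxY⟩
        · exact Or.inr ⟨hx, hxY⟩))
    refine ⟨A', hA'0.trans inter_subset_left, hA', Or.inr fun N => ⟨k N, hk.id_le N, ?_⟩⟩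
    exact (hkA N).trans inter_subset_right

/-- The second task. -/
theorem Cond.taskK (c : Cond) (T : Finset ℕ → ℕ → ℕ → Prop)
    (hT : ∀ s n m m', m' ≤ m → T s n m → T s n m') :
    ∃ d : Cond, d.le c ∧ d.A ⊆ c.A ∧
      ((∃ n, ∀ s : Finset ℕ, (s : Set ℕ) ⊆ d.A → ∀ m, T s n m) ∨
        ∃ h : ℕ → ℕ, ∀ Y : Set ℕ, Y ⊆ d.A →
          (∀ n, ∀ s : Finset ℕ, (s : Set ℕ) ⊆ Y → T s n (h n)) → Y ∈ d.J) := by
  classical
  by_cases hcase : ∃ n, ∃ Y : Set ℕ, Y ⊆ c.A ∧ (∀ s : Finset ℕ, (s : Set ℕ) ⊆ Y → ∀ m, T s n m) ∧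
      Y ∉ c.J
  · obtain ⟨n, Y, hYA, hY, hYJ⟩ := hcase
    exact ⟨⟨Y, c.J, c.id, c.rep, hYJ⟩, ⟨by simp [Set.sdiff_eq_empty.2 hYA], subset_rfl⟩, hYA,
      Or.inl ⟨n, hY⟩⟩
  push Not at hcase
  obtain ⟨C, hC⟩ := c.rep
  let Z : ℕ → Set (Set ℕ) := fun n =>
    {Y | Y ⊆ c.A ∧ (Y = ∅ ∨ ∀ s : Finset ℕ, (s : Set ℕ) ⊆ Y → ∀ m, T s n m)}
  have hZ : ∀ n, IsFam (Z n) := by
    intro n
    refine ⟨⟨empty_subset _, Or.inl rfl⟩, ?_, ?_⟩
    · rintro X Y hXY ⟨h1, h2⟩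
      refine ⟨hXY.trans h1, ?_⟩
      rcases h2 with rfl | h2
      · exact Or.inl (subset_empty_iff.1 hXY)
      · exact Or.inr fun s hs => h2 s (hs.trans hXY)
    · intro X hX
      refine ⟨?_, ?_⟩
      · intro x hx
        exact (hX (x + 1)).1 ⟨hx, by simp⟩
      · by_cases hXe : X = ∅
        · exact Or.inl hXe
        · right
          intro s hs m
          obtain ⟨x, hx⟩ := Set.nonempty_iff_ne_empty.2 hXe
          obtain ⟨N, hN⟩ : ∃ N : ℕ, (∀ y ∈ s, y < N) ∧ x < N := by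
            obtain ⟨N, hN⟩ := s.exists_nat_subset_range
            refine ⟨max N (x + 1), fun y hy => ?_, by omega⟩
            have := Finset.mem_range.1 (hN hy)
            omega
          rcases (hX N).2 with h | h
          · have h5 : x ∈ X ∩ Iio N := ⟨hx, hN.2⟩
            rw [h] at h5
            exact absurd h5 (Set.notMem_empty x)
          · exact h s (fun y hy => ⟨hs hy, hN.1 y hy⟩) m
  have hZJ : ∀ n, Z n ⊆ c.J := by
    rintro n Y ⟨hYA, rfl | hY⟩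
    · exact c.id.fin _ Set.finite_empty
    · exact hcase n Y hYA hY
  have hk : ∀ n, ∃ k : ℕ, c.A ∩ Iio k ∉ addFam (nsFam (Z n) n) (C n) := by
    intro n
    refine (((hZ n).ns n).add (hC.fam n)).exists_cut ?_
    rintro ⟨A, hA, B, hB, h⟩
    exact c.notMem (c.id.sub _ _ h (c.id.union _ _ (nsFam_sub c.id (hZJ n) n hA)
      ((hC.eq _).2 ⟨n, hB⟩)))
  choose k hk using hk
  have hh : ∀ n, ∃ h : ℕ, ∀ Y : Set ℕ, Y ⊆ c.A ∩ Iio (k n) →
      (∀ s : Finset ℕ, (s : Set ℕ) ⊆ Y → T s n h) → Y ∈ Z n := by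
    intro n
    have h1 : ∀ Y : Set ℕ, ∃ h : ℕ, Y ⊆ c.A →
        (∀ s : Finset ℕ, (s : Set ℕ) ⊆ Y → T s n h) → Y ∈ Z n := by
      intro Y
      by_cases hY : Y ∈ Z n
      · exact ⟨0, fun _ _ => hY⟩
      · by_cases hYA : Y ⊆ c.A
        · have h2 : ¬ ∀ s : Finset ℕ, (s : Set ℕ) ⊆ Y → ∀ m, T s n m := fun h =>
            hY ⟨hYA, Or.inr h⟩
          push Not at h2
          obtain ⟨s, hs, m, hm⟩ := h2
          exact ⟨m, fun _ h => absurd (h s hs) hm⟩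
        · exact ⟨0, fun h => absurd h hYA⟩
    choose g hg using h1
    have hfin : (𝒫 (c.A ∩ Iio (k n))).Finite :=
      ((Set.finite_Iio (k n)).subset inter_subset_right).powerset
    obtain ⟨b, hb⟩ := (hfin.image g).bddAbove
    refine ⟨b, fun Y hY hYT => hg Y (hY.trans inter_subset_left) fun s hs => ?_⟩
    exact hT _ _ _ _ (hb ⟨Y, hY, rfl⟩) (hYT s hs)
  choose h hh using hh
  let K : Set (Set ℕ) := {Y | Y ⊆ c.A ∧ ∀ n, Y ∩ Iio (k n) ∈ Z n}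
  have hK : IsFam K := by
    refine ⟨⟨empty_subset _, fun n => ?_⟩, ?_, ?_⟩
    · rw [Set.empty_inter]; exact (hZ n).empty
    · rintro X Y hXY ⟨h1, h2⟩
      exact ⟨hXY.trans h1, fun n => (hZ n).sub _ _ (inter_subset_inter_left _ hXY) (h2 n)⟩
    · intro X hX
      refine ⟨?_, fun n => ?_⟩
      · intro x hx
        exact (hX (x + 1)).1 ⟨hx, by simp⟩
      · have := (hX (k n)).2 n
        rw [Set.inter_assoc, Set.inter_self] at this
        exact this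
  let J' : Set (Set ℕ) := {X | ∃ n, X ∈ addFam (nsFam K n) (C n)}
  have hmono : Monotone fun n => addFam (nsFam K n) (C n) := by
    rintro a b hab X ⟨A, hA, B, hB, h⟩
    exact ⟨A, nsFam_mono hK hab hA, B, hC.mono hab hB, h⟩
  have hJ' : IsId J' := by
    refine ⟨?_, ?_, ?_⟩
    · rintro X Y hXY ⟨n, hn⟩
      exact ⟨n, (((hK.ns n).add (hC.fam n)).sub _ _ hXY hn)⟩
    · rintro X Y ⟨n, A, hA, B, hB, h⟩ ⟨m, A', hA', B', hB', h'⟩
      have h1 := nsFam_add hA hA'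
      obtain ⟨l, hl⟩ := (hC.eq (B ∪ B')).1 (c.id.union _ _ ((hC.eq _).2 ⟨n, hB⟩)
        ((hC.eq _).2 ⟨m, hB'⟩))
      refine ⟨max (n + m) l, A ∪ A', nsFam_mono hK (le_max_left _ _) h1, B ∪ B',
        hC.mono (le_max_right _ _) hl, ?_⟩
      intro x hx
      rcases hx with hx | hx
      · rcases h hx with h | h
        · exact Or.inl (Or.inl h)
        · exact Or.inr (Or.inl h)
      · rcases h' hx with h | h
        · exact Or.inl (Or.inr h)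
        · exact Or.inr (Or.inr h)
    · intro X hX
      obtain ⟨n, hn⟩ := (hC.eq _).1 (c.id.fin X hX)
      exact ⟨n, ∅, (hK.ns n).empty, X, hn, by simp⟩
  have hsub : ∀ X, X ∈ c.J → X ∈ J' := by
    intro X hX
    obtain ⟨n, hn⟩ := (hC.eq _).1 hX
    exact ⟨n, ∅, (hK.ns n).empty, X, hn, by simp⟩
  have hcut : ∀ n j X, X ∈ nsFam K j → X ∩ Iio (k n) ∈ nsFam (Z n) j := by
    intro n j
    induction j with
    | zero =>
      intro X hX
      have : X = ∅ := hX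
      subst this
      rw [Set.empty_inter]
      rfl
    | succ j ih =>
      rintro X ⟨A, hA, B, hB, h⟩
      refine ⟨A ∩ Iio (k n), hA.2 n, B ∩ Iio (k n), ih B hB, ?_⟩
      rw [← Set.union_inter_distrib_right]
      exact inter_subset_inter_left _ h
  have hAJ' : c.A ∉ J' := by
    rintro ⟨n, A, hA, B, hB, h⟩
    refine hk n ⟨A ∩ Iio (k n), hcut n n A hA, B, hB, ?_⟩
    rintro x ⟨hx, hxk⟩
    rcases h hx with h | h
    · exact Or.inl ⟨h, hxk⟩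
    · exact Or.inr h
  refine ⟨⟨c.A, J', hJ', ⟨_, ⟨fun n => (hK.ns n).add (hC.fam n), hmono, fun X => Iff.rfl⟩⟩, hAJ'⟩,
    ⟨by simp, hsub⟩, subset_rfl, Or.inr ⟨h, fun Y hYA hY => ?_⟩⟩
  refine ⟨1, Y, ?_, ∅, (hC.fam 1).empty, by simp⟩
  refine ⟨Y, ⟨hYA, fun n => ?_⟩, ∅, rfl, by simp⟩
  refine hh n _ (inter_subset_inter_left _ hYA) fun s hs => ?_
  exact hY n s (hs.trans inter_subset_left)

/-- What it means that `d` handles the task `(Y, T)`. -/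
def Handles (Y : ℕ → Set ℕ) (T : Finset ℕ → ℕ → ℕ → Prop) (d : Cond) : Prop :=
  (Antitone Y → ((∃ k, (d.A ∩ Y k).Finite) ∨ ∀ N : ℕ, ∃ k : ℕ, N ≤ k ∧ d.A \ Iio k ⊆ Y k)) ∧
  ((∀ s n m m', m' ≤ m → T s n m → T s n m') →
    ((∃ n, ∀ s : Finset ℕ, (s : Set ℕ) ⊆ d.A → ∀ m, T s n m) ∨
        ∃ h : ℕ → ℕ, ∀ Y : Set ℕ, Y ⊆ d.A →
          (∀ n, ∀ s : Finset ℕ, (s : Set ℕ) ⊆ Y → T s n (h n)) → Y ∈ d.J))

theorem Cond.handle (c : Cond) (Y : ℕ → Set ℕ) (T : Finset ℕ → ℕ → ℕ → Prop) :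
    ∃ d : Cond, d.le c ∧ d.A ⊆ c.A ∧ Handles Y T d := by
  obtain ⟨c1, hc1, hc1A, h1⟩ : ∃ d : Cond, d.le c ∧ d.A ⊆ c.A ∧
      (Antitone Y → ((∃ k, (d.A ∩ Y k).Finite) ∨
        ∀ N : ℕ, ∃ k : ℕ, N ≤ k ∧ d.A \ Iio k ⊆ Y k)) := by
    by_cases hY : Antitone Y
    · obtain ⟨A', hA', hA'J, h⟩ := c.taskP Y hY
      exact ⟨⟨A', c.J, c.id, c.rep, hA'J⟩, ⟨by simp [Set.sdiff_eq_empty.2 hA'], subset_rfl⟩, hA',
        fun _ => h⟩
    · exact ⟨c, c.le_refl, subset_rfl, fun h => absurd h hY⟩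
  obtain ⟨c2, hc2, hc2A, h2⟩ : ∃ d : Cond, d.le c1 ∧ d.A ⊆ c1.A ∧
      ((∀ s n m m', m' ≤ m → T s n m → T s n m') →
    ((∃ n, ∀ s : Finset ℕ, (s : Set ℕ) ⊆ d.A → ∀ m, T s n m) ∨
        ∃ h : ℕ → ℕ, ∀ Y : Set ℕ, Y ⊆ d.A →
          (∀ n, ∀ s : Finset ℕ, (s : Set ℕ) ⊆ Y → T s n (h n)) → Y ∈ d.J)) := by
    by_cases hT : ∀ s n m m', m' ≤ m → T s n m → T s n m'
    · obtain ⟨d, hd, hdA, h⟩ := c1.taskK T hT
      exact ⟨d, hd, hdA, fun _ => h⟩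
    · exact ⟨c1, c1.le_refl, subset_rfl, fun h => absurd h hT⟩
  refine ⟨c2, Cond.le_trans hc2 hc1, hc2A.trans hc1A, fun hY => ?_, h2⟩
  rcases h1 hY with ⟨k, hk⟩ | h
  · exact Or.inl ⟨k, hk.subset (inter_subset_inter_left _ hc2A)⟩
  · right
    intro N
    obtain ⟨k, hk, hk2⟩ := h N
    exact ⟨k, hk, (sdiff_subset_sdiff_left hc2A).trans hk2⟩

/-- Decoding of tasks. -/
def decY (t : Set ℕ) : ℕ → Set ℕ := fun k =>
  {n | Encodable.encode (Sum.inl (k, n) : (ℕ × ℕ) ⊕ (Finset ℕ × ℕ × ℕ)) ∈ t}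

/-- Decoding of tasks. -/
def decT (t : Set ℕ) : Finset ℕ → ℕ → ℕ → Prop := fun s n m =>
  Encodable.encode (Sum.inr (s, n, m) : (ℕ × ℕ) ⊕ (Finset ℕ × ℕ × ℕ)) ∈ t

theorem exists_code (Y : ℕ → Set ℕ) (T : Finset ℕ → ℕ → ℕ → Prop) :
    ∃ t, decY t = Y ∧ decT t = T := by
  refine ⟨Encodable.encode '' {x : (ℕ × ℕ) ⊕ (Finset ℕ × ℕ × ℕ) |
    (∃ k n, x = Sum.inl (k, n) ∧ n ∈ Y k) ∨ ∃ s n m, x = Sum.inr (s, n, m) ∧ T s n m}, ?_, ?_⟩
  · funext k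
    ext n
    simp only [decY, mem_ofPred_eq]
    rw [Function.Injective.mem_set_image Encodable.encode_injective]
    simp
  · funext s n m
    simp only [decT]
    rw [Function.Injective.mem_set_image Encodable.encode_injective]
    simp

/-- The successor step: an almost disjoint family of extensions handling all tasks. -/
theorem Cond.succ (c : Cond) : ∃ E : Set ℕ → Cond, (∀ t, (E t).le c) ∧
    (∀ t t', t ≠ t' → ((E t).A ∩ (E t').A).Finite) ∧ ∀ t, Handles (decY t) (decT t) (E t) := by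
  obtain ⟨p, hp1, hp2, hp3⟩ := c.split
  have h : ∀ t, ∃ d : Cond, d.le c ∧ d.A ⊆ p t ∧ Handles (decY t) (decT t) d := by
    intro t
    obtain ⟨d, hd, hdA, hh⟩ := Cond.handle ⟨p t, c.J, c.id, c.rep, hp2 t⟩ (decY t) (decT t)
    exact ⟨d, Cond.le_trans hd ⟨by simp [Set.sdiff_eq_empty.2 (hp1 t)], subset_rfl⟩, hdA, hh⟩
  choose E hE1 hE2 hE3 using h
  exact ⟨E, hE1, fun t t' htt => (hp3 t t' htt).subset (inter_subset_inter (hE2 t) (hE2 t')), hE3⟩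

end Pool.Agent.MP_8214d2_lc
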